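import Mathlib

/-!
# The weighted pendulum equation: a solution which overshoots

With the continuous even weight `a(x) = exp((cos 2x - 1)/4)` for `|x| ≤ π`, `1 + sin² x` for
`π ≤ |x| ≤ 2π`, `1` for `|x| ≥ 2π`, the odd function equal to `x` on `[0, π]`, to
`π - arctan (sin x)` on `[π, 2π]`, and to `π/2 + 2 arctan (exp (2π - x))` on `[2π, ∞)` solves the
weighted pendulum equation and satisfies the constraints, and takes the value `5π/4 > π/2`.
-/

namespace Pool.Agent.Results.MP_4601b9_an.Overshoot

open MeasureTheory Set Filter Real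
open scoped Topology ContDiff

/-- `a` is a weight: measurable with `a₀ ≤ a ≤ A₀` for constants `A₀ ≥ a₀ > 0` (here everywhere). -/
def IsWeight (a : ℝ → ℝ) : Prop :=
  Measurable a ∧ ∃ a₀ A₀ : ℝ, 0 < a₀ ∧ ∀ x, a₀ ≤ a x ∧ a x ≤ A₀

/-- `φ` belongs to `Ḣ¹(ℝ)` with derivative `dφ`: `dφ ∈ L²(ℝ)` and `φ` is a primitive of `dφ`. -/
def IsHdot1 (φ dφ : ℝ → ℝ) : Prop :=
  MemLp dφ 2 volume ∧ ∀ x y : ℝ, IntervalIntegrable dφ volume x y ∧
    φ y - φ x = ∫ s in x..y, dφ s

/-- `(a φ')' + a sin φ cos φ = 0` in the sense of distributions on `ℝ ∖ {0}`. -/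
def SolvesPendulum (a φ dφ : ℝ → ℝ) : Prop :=
  ∀ η : ℝ → ℝ, ContDiff ℝ ∞ η → HasCompactSupport η → (0 : ℝ) ∉ tsupport η →
    ∫ x, (a x * dφ x * deriv η x - a x * (Real.sin (φ x) * Real.cos (φ x)) * η x) = 0

/-- The constraints: `φ(0) = 0`, `φ(x) → ± π/2` as `x → ± ∞`. -/
def Constraints (φ : ℝ → ℝ) : Prop :=
  φ 0 = 0 ∧ Tendsto φ atTop (𝓝 (π / 2)) ∧ Tendsto φ atBot (𝓝 (-(π / 2)))

/-! ### The half line -/

/-- weight on `[0, ∞)` -/
noncomputable def wt (x : ℝ) : ℝ :=
  if x ≤ π then Real.exp ((Real.cos (2 * x) - 1) / 4)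
  else if x ≤ 2 * π then 1 + Real.sin x ^ 2 else 1

/-- solution on `[0, ∞)` -/
noncomputable def ph (x : ℝ) : ℝ :=
  if x ≤ π then x
  else if x ≤ 2 * π then π - Real.arctan (Real.sin x)
  else π / 2 + 2 * Real.arctan (Real.exp (2 * π - x))

/-- its derivative -/
noncomputable def dph (x : ℝ) : ℝ :=
  if x ≤ π then 1
  else if x ≤ 2 * π then -(Real.cos x / (1 + Real.sin x ^ 2))
  else -(2 * Real.exp (2 * π - x) / (1 + Real.exp (2 * π - x) ^ 2))

/-- gluing of derivatives -/
lemma glue {f g : ℝ → ℝ} {p d : ℝ} (hf : HasDerivAt f d p) (hg : HasDerivAt g d p)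
    (hfg : f p = g p) : HasDerivAt (fun x => if x ≤ p then f x else g x) d p := by
  have h1 : HasDerivWithinAt (fun x => if x ≤ p then f x else g x) d (Iic p) p :=
    hf.hasDerivWithinAt.congr (fun x hx => if_pos hx) (if_pos le_rfl)
  have h2 : HasDerivWithinAt (fun x => if x ≤ p then f x else g x) d (Ici p) p := by
    refine hg.hasDerivWithinAt.congr (fun x hx => ?_) ?_
    · by_cases h : x ≤ p
      · have : x = p := le_antisymm h hx
        rw [if_pos h, this, hfg]
      · exact if_neg h
    · rw [if_pos le_rfl, hfg]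
  have := h1.union h2
  rwa [Iic_union_Ici, hasDerivWithinAt_univ] at this

lemma glue_lt {f g : ℝ → ℝ} {p x d : ℝ} (hx : x < p) (hf : HasDerivAt f d x) :
    HasDerivAt (fun x => if x ≤ p then f x else g x) d x :=
  hf.congr_of_eventuallyEq (by
    filter_upwards [Iio_mem_nhds hx] with y hy
    exact if_pos (le_of_lt hy))

lemma glue_gt {f g : ℝ → ℝ} {p x d : ℝ} (hx : p < x) (hg : HasDerivAt g d x) :
    HasDerivAt (fun x => if x ≤ p then f x else g x) d x :=
  hg.congr_of_eventuallyEq (by
    filter_upwards [Ioi_mem_nhds hx] with y hy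
    exact if_neg (not_le.mpr hy))

/-- three-piece gluing -/
lemma glue3 {f g h : ℝ → ℝ} {f' g' h' : ℝ → ℝ} {p q : ℝ} (hpq : p < q)
    (hf : ∀ x ≤ p, HasDerivAt f (f' x) x)
    (hg : ∀ x, p ≤ x → x ≤ q → HasDerivAt g (g' x) x)
    (hh : ∀ x, q ≤ x → HasDerivAt h (h' x) x)
    (e1 : f p = g p) (e1' : f' p = g' p) (e2 : g q = h q) (e2' : g' q = h' q) (x : ℝ) :
    HasDerivAt (fun x => if x ≤ p then f x else if x ≤ q then g x else h x)
      (if x ≤ p then f' x else if x ≤ q then g' x else h' x) x := by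
  rcases lt_trichotomy x p with h1 | h1 | h1
  · rw [if_pos h1.le]
    exact glue_lt h1 (hf x h1.le)
  · subst h1
    rw [if_pos le_rfl]
    refine glue (hf x le_rfl) (glue_lt hpq ?_) ?_
    · rw [e1']; exact hg x le_rfl hpq.le
    · rw [if_pos hpq.le]; exact e1
  · rw [if_neg (not_le.mpr h1)]
    refine glue_gt h1 ?_
    rcases lt_trichotomy x q with h2 | h2 | h2
    · rw [if_pos h2.le]
      exact glue_lt h2 (hg x h1.le h2.le)
    · subst h2
      rw [if_pos le_rfl]
      refine glue (hg x h1.le le_rfl) ?_ e2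
      rw [e2']; exact hh x le_rfl
    · rw [if_neg (not_le.mpr h2)]
      exact glue_gt h2 (hh x h2.le)

lemma ph_hasDerivAt (x : ℝ) : HasDerivAt ph (dph x) x := by
  have hpi := Real.pi_pos
  refine glue3 (f := fun x => x) (g := fun x => π - Real.arctan (Real.sin x))
    (h := fun x => π / 2 + 2 * Real.arctan (Real.exp (2 * π - x)))
    (f' := fun _ => 1) (g' := fun x => -(Real.cos x / (1 + Real.sin x ^ 2)))
    (h' := fun x => -(2 * Real.exp (2 * π - x) / (1 + Real.exp (2 * π - x) ^ 2)))
    (by linarith : π < 2 * π) (fun x _ => hasDerivAt_id x) (fun x _ _ => ?_) (fun x _ => ?_)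
    ?_ ?_ ?_ ?_ x
  · refine (((Real.hasDerivAt_sin x).arctan).const_sub π).congr_deriv ?_
    ring
  · have h1 : HasDerivAt (fun x : ℝ => 2 * π - x) (-1) x := by
      simpa using (hasDerivAt_id x).const_sub (2 * π)
    refine ((h1.exp.arctan.const_mul 2).const_add (π / 2)).congr_deriv ?_
    ring
  · simp
  · simp
  · simp; ring
  · simp; norm_num

lemma flux_hasDerivAt (x : ℝ) :
    HasDerivAt (fun x => wt x * dph x) (-(wt x * (Real.sin (ph x) * Real.cos (ph x)))) x := by
  have hpi := Real.pi_pos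
  have key := glue3 (f := fun x => Real.exp ((Real.cos (2 * x) - 1) / 4))
    (g := fun x => -Real.cos x)
    (h := fun x => -(2 * Real.exp (2 * π - x) / (1 + Real.exp (2 * π - x) ^ 2)))
    (f' := fun x => -(Real.exp ((Real.cos (2 * x) - 1) / 4) * (Real.sin x * Real.cos x)))
    (g' := fun x => Real.sin x)
    (h' := fun x => 2 * Real.exp (2 * π - x) * (1 - Real.exp (2 * π - x) ^ 2)
      / (1 + Real.exp (2 * π - x) ^ 2) ^ 2)
    (by linarith : π < 2 * π) (fun x _ => ?_) (fun x _ _ => ?_) (fun x _ => ?_)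
    ?_ ?_ ?_ ?_ x
  · have e1 : (fun x => wt x * dph x) = fun x => if x ≤ π then
        Real.exp ((Real.cos (2 * x) - 1) / 4) else if x ≤ 2 * π then -Real.cos x else
        -(2 * Real.exp (2 * π - x) / (1 + Real.exp (2 * π - x) ^ 2)) := by
      funext x
      unfold wt dph
      split_ifs
      · ring
      · have : 1 + Real.sin x ^ 2 ≠ 0 := by positivity
        field_simp
      · ring
    rw [e1]
    refine key.congr_deriv ?_
    unfold wt ph
    split_ifs
    · rfl
    · have e2 : Real.sin (π - Real.arctan (Real.sin x)) = Real.sin (Real.arctan (Real.sin x)) :=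
        Real.sin_pi_sub _
      have e3 : Real.cos (π - Real.arctan (Real.sin x)) = -Real.cos (Real.arctan (Real.sin x)) :=
        Real.cos_pi_sub _
      rw [e2, e3, Real.sin_arctan, Real.cos_arctan]
      have h1 : √(1 + Real.sin x ^ 2) ^ 2 = 1 + Real.sin x ^ 2 := Real.sq_sqrt (by positivity)
      have h2 : 0 < √(1 + Real.sin x ^ 2) := Real.sqrt_pos.mpr (by positivity)
      have h3 : Real.sin x / √(1 + Real.sin x ^ 2) * -(1 / √(1 + Real.sin x ^ 2))
          = -(Real.sin x / √(1 + Real.sin x ^ 2) ^ 2) := by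
        field_simp
      rw [h3, h1]
      have h4 : 1 + Real.sin x ^ 2 ≠ 0 := by positivity
      field_simp
    · set E := Real.exp (2 * π - x) with hE
      have e2 : Real.sin (π / 2 + 2 * Real.arctan E) = Real.cos (2 * Real.arctan E) := by
        rw [add_comm, Real.sin_add_pi_div_two]
      have e3 : Real.cos (π / 2 + 2 * Real.arctan E) = -Real.sin (2 * Real.arctan E) := by
        rw [add_comm, Real.cos_add_pi_div_two]
      rw [e2, e3, Real.sin_two_mul, Real.cos_two_mul, Real.sin_arctan, Real.cos_arctan]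
      have h1 : √(1 + E ^ 2) ^ 2 = 1 + E ^ 2 := Real.sq_sqrt (by positivity)
      have h2 : 0 < √(1 + E ^ 2) := Real.sqrt_pos.mpr (by positivity)
      have h3 : (2 * (1 / √(1 + E ^ 2)) ^ 2 - 1) * -(2 * (E / √(1 + E ^ 2)) * (1 / √(1 + E ^ 2)))
          = -((2 / √(1 + E ^ 2) ^ 2 - 1) * (2 * E / √(1 + E ^ 2) ^ 2)) := by
        field_simp
      rw [h3, h1]
      have h4 : 1 + E ^ 2 ≠ 0 := by positivity
      field_simp
      ring
  · have h1 : HasDerivAt (fun x : ℝ => (Real.cos (2 * x) - 1) / 4)
        (-Real.sin (2 * x) * 2 / 4) x := by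
      have h2 : HasDerivAt (fun x : ℝ => 2 * x) 2 x := by
        simpa using (hasDerivAt_id x).const_mul (2 : ℝ)
      exact (((Real.hasDerivAt_cos (2 * x)).comp x h2).sub_const 1).div_const 4
    refine h1.exp.congr_deriv ?_
    rw [Real.sin_two_mul]
    ring
  · refine (Real.hasDerivAt_cos x).neg.congr_deriv ?_
    ring
  · have h1 : HasDerivAt (fun x : ℝ => 2 * π - x) (-1) x := by
      simpa using (hasDerivAt_id x).const_sub (2 * π)
    have h2 := h1.exp
    have h3 : (1 + Real.exp (2 * π - x) ^ 2) ≠ 0 := by positivity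
    have h4 : HasDerivAt (fun x : ℝ => 1 + Real.exp (2 * π - x) ^ 2)
        (2 * Real.exp (2 * π - x) * (Real.exp (2 * π - x) * (-1))) x := by
      refine ((h2.pow 2).const_add 1).congr_deriv ?_
      simp
    have h5 : HasDerivAt (fun x : ℝ => 2 * Real.exp (2 * π - x))
        (2 * (Real.exp (2 * π - x) * (-1))) x := h2.const_mul 2
    refine ((h5.div h4 h3).neg).congr_deriv ?_
    field_simp
    ring
  · have : (2 * π : ℝ) = 0 + 2 * π := by ring
    simp
  · simp
  · simp; norm_num
  · simp

lemma continuous_wt : Continuous wt := by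
  unfold wt
  refine Continuous.if_le (by fun_prop) ?_ continuous_id continuous_const ?_
  · refine Continuous.if_le (by fun_prop) continuous_const continuous_id continuous_const ?_
    intro x hx
    replace hx : x = _ := hx
    subst hx
    simp
  · intro x hx
    replace hx : x = _ := hx
    subst hx
    have : π ≤ 2 * π := by linarith [Real.pi_pos]
    simp [this]

lemma continuous_dph : Continuous dph := by
  unfold dph
  refine Continuous.if_le continuous_const ?_ continuous_id continuous_const ?_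
  · refine Continuous.if_le ?_ ?_ continuous_id continuous_const ?_
    · refine (Continuous.div (by fun_prop) (by fun_prop) fun x => ?_).neg
      positivity
    · refine (Continuous.div (by fun_prop) (by fun_prop) fun x => ?_).neg
      positivity
    · intro x hx
      replace hx : x = _ := hx
      subst hx
      simp
      norm_num
  · intro x hx
    replace hx : x = _ := hx
    subst hx
    have : π ≤ 2 * π := by linarith [Real.pi_pos]
    simp [this]

lemma wt_bounds (x : ℝ) : Real.exp (-(1 / 2)) ≤ wt x ∧ wt x ≤ 2 := by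
  have h0 : Real.exp (-(1 / 2)) ≤ 1 := Real.exp_le_one_iff.mpr (by norm_num)
  unfold wt
  split_ifs
  · constructor
    · apply Real.exp_le_exp.mpr
      linarith [Real.neg_one_le_cos (2 * x)]
    · have : Real.exp ((Real.cos (2 * x) - 1) / 4) ≤ 1 :=
        Real.exp_le_one_iff.mpr (by linarith [Real.cos_le_one (2 * x)])
      linarith
  · constructor
    · nlinarith [sq_nonneg (Real.sin x)]
    · linarith [Real.sin_sq_le_one x]
  · exact ⟨h0, by norm_num⟩

lemma abs_dph_le {x : ℝ} (_hx : 0 ≤ x) : |dph x| ≤ 2 * Real.exp (2 * π - x) := by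
  unfold dph
  have hpi := Real.pi_pos
  split_ifs with h1 h2
  · rw [abs_one]
    have : 1 ≤ Real.exp (2 * π - x) := Real.one_le_exp (by linarith)
    linarith
  · have h3 : 1 ≤ Real.exp (2 * π - x) := Real.one_le_exp (by linarith)
    rw [abs_neg, abs_div, abs_of_pos (by positivity : 0 < 1 + Real.sin x ^ 2)]
    have h4 : |Real.cos x| / (1 + Real.sin x ^ 2) ≤ 1 := by
      rw [div_le_one (by positivity)]
      nlinarith [Real.abs_cos_le_one x, sq_nonneg (Real.sin x)]
    linarith
  · rw [abs_neg, abs_of_pos (by positivity)]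
    apply div_le_self (by positivity)
    nlinarith [sq_nonneg (Real.exp (2 * π - x))]

/-! ### The whole line -/

/-- the weight -/
noncomputable def wtR (x : ℝ) : ℝ := wt |x|

/-- the solution -/
noncomputable def phR (x : ℝ) : ℝ := if x ≤ 0 then -ph (-x) else ph x

/-- its derivative -/
noncomputable def dphR (x : ℝ) : ℝ := dph |x|

lemma ph_zero : ph 0 = 0 := by
  unfold ph; rw [if_pos Real.pi_pos.le]

lemma phR_hasDerivAt (x : ℝ) : HasDerivAt phR (dphR x) x := by
  have hneg : ∀ y : ℝ, HasDerivAt (fun x => -ph (-x)) (dph (-y)) y := by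
    intro y
    have h1 : HasDerivAt (fun x : ℝ => -x) (-1) y := (hasDerivAt_id y).neg
    refine (((ph_hasDerivAt (-y)).comp y h1).neg).congr_deriv ?_
    ring
  rcases lt_trichotomy x 0 with h | h | h
  · have : dphR x = dph (-x) := by unfold dphR; rw [abs_of_neg h]
    rw [this]
    exact glue_lt h (hneg x)
  · subst h
    have e : dphR 0 = dph 0 := by unfold dphR; simp
    rw [e]
    refine glue (f := fun x => -ph (-x)) (g := ph) ?_ (ph_hasDerivAt 0) ?_
    · simpa using hneg 0
    · simp [ph_zero]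
  · have : dphR x = dph x := by unfold dphR; rw [abs_of_pos h]
    rw [this]
    exact glue_gt h (ph_hasDerivAt x)

lemma fluxR_hasDerivAt {x : ℝ} (hx : x ≠ 0) :
    HasDerivAt (fun x => wtR x * dphR x)
      (-(wtR x * (Real.sin (phR x) * Real.cos (phR x)))) x := by
  rcases lt_or_gt_of_ne hx with h | h
  · have h1 : HasDerivAt (fun x : ℝ => -x) (-1) x := (hasDerivAt_id x).neg
    have h2 := (flux_hasDerivAt (-x)).comp x h1
    have e1 : wtR x = wt (-x) := by unfold wtR; rw [abs_of_neg h]
    have e2 : phR x = -ph (-x) := by unfold phR; rw [if_pos h.le]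
    rw [e1, e2, Real.sin_neg, Real.cos_neg]
    refine (h2.congr_of_eventuallyEq ?_).congr_deriv (by ring)
    filter_upwards [Iio_mem_nhds h] with y hy
    have hy' : y < 0 := hy
    simp only [wtR, dphR, Function.comp, abs_of_neg hy']
  · have e1 : wtR x = wt x := by unfold wtR; rw [abs_of_pos h]
    have e2 : phR x = ph x := by unfold phR; rw [if_neg (not_le.mpr h)]
    rw [e1, e2]
    refine (flux_hasDerivAt x).congr_of_eventuallyEq ?_
    filter_upwards [Ioi_mem_nhds h] with y hy
    have hy' : 0 < y := hy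
    simp only [wtR, dphR, abs_of_pos hy']

lemma continuous_wtR : Continuous wtR := continuous_wt.comp continuous_abs

lemma continuous_dphR : Continuous dphR := continuous_dph.comp continuous_abs

lemma continuous_phR : Continuous phR :=
  continuous_iff_continuousAt.mpr fun x => (phR_hasDerivAt x).continuousAt

lemma solves : SolvesPendulum wtR phR dphR := by
  intro η hη hc h0
  have hη1 : Differentiable ℝ η := hη.differentiable (by simp)
  have hη2 : Continuous (deriv η) := hη.continuous_deriv (by simp)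
  have hη0 : η =ᶠ[𝓝 0] 0 := notMem_tsupport_iff_eventuallyEq.mp h0
  have hd : ∀ x : ℝ, HasDerivAt (fun x => wtR x * dphR x * η x)
      (wtR x * dphR x * deriv η x
        - wtR x * (Real.sin (phR x) * Real.cos (phR x)) * η x) x := by
    intro x
    by_cases hx : x = 0
    · subst hx
      have e1 : η 0 = 0 := hη0.eq_of_nhds
      have e2 : deriv η 0 = 0 := by
        rw [hη0.deriv_eq]
        simp
      rw [e1, e2]
      have : HasDerivAt (fun _ : ℝ => (0 : ℝ)) 0 0 := hasDerivAt_const _ _
      refine (this.congr_of_eventuallyEq ?_).congr_deriv (by ring)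
      filter_upwards [hη0] with y hy
      rw [hy]; simp
    · refine ((fluxR_hasDerivAt hx).mul (hη1 x).hasDerivAt).congr_deriv ?_
      ring
  have cF : Continuous (fun x => wtR x * dphR x) := continuous_wtR.mul continuous_dphR
  have hsc : Continuous fun x => wtR x * (Real.sin (phR x) * Real.cos (phR x)) :=
    continuous_wtR.mul ((Real.continuous_sin.comp continuous_phR).mul
      (Real.continuous_cos.comp continuous_phR))
  have i1 : Integrable (fun x => wtR x * dphR x * η x) :=
    (cF.mul hη.continuous).integrable_of_hasCompactSupport hc.mul_left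
  have i2 : Integrable (fun x => wtR x * dphR x * deriv η x
        - wtR x * (Real.sin (phR x) * Real.cos (phR x)) * η x) := by
    refine Integrable.sub ?_ ?_
    · exact (cF.mul hη2).integrable_of_hasCompactSupport hc.deriv.mul_left
    · exact (hsc.mul hη.continuous).integrable_of_hasCompactSupport hc.mul_left
  exact integral_eq_zero_of_hasDerivAt_of_integrable hd i2 i1

lemma memLp_dphR : MemLp dphR 2 volume := by
  rw [memLp_two_iff_integrable_sq continuous_dphR.aestronglyMeasurable]
  refine Integrable.mono' (g := fun x => 4 * Real.exp (2 * (2 * π)) * (1 + x ^ 2)⁻¹)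
    (integrable_inv_one_add_sq.const_mul _) ?_ ?_
  · exact (continuous_dphR.pow 2).aestronglyMeasurable
  · refine Eventually.of_forall fun x => ?_
    have h1 : abs (dph |x|) ≤ 2 * Real.exp (2 * π - |x|) := abs_dph_le (abs_nonneg x)
    have h2 : dph |x| ^ 2 ≤ (2 * Real.exp (2 * π - |x|)) ^ 2 := by
      rw [← sq_abs]
      exact pow_le_pow_left₀ (abs_nonneg _) h1 2
    have h3 : (2 * Real.exp (2 * π - |x|)) ^ 2
        = 4 * Real.exp (2 * (2 * π)) * (Real.exp (2 * |x|))⁻¹ := by
      rw [mul_pow, ← Real.exp_nat_mul, ← Real.exp_neg, mul_assoc, ← Real.exp_add]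
      norm_num
      ring_nf
    have h4 : (Real.exp (2 * |x|))⁻¹ ≤ (1 + x ^ 2)⁻¹ := by
      apply inv_anti₀ (by positivity)
      have := Real.quadratic_le_exp_of_nonneg (by positivity : 0 ≤ 2 * |x|)
      have h5 : (2 * |x|) ^ 2 = 4 * x ^ 2 := by rw [mul_pow, sq_abs]; norm_num
      rw [h5] at this
      nlinarith [abs_nonneg x, sq_nonneg x]
    rw [Real.norm_eq_abs, abs_of_nonneg (sq_nonneg _)]
    unfold dphR
    calc dph |x| ^ 2 ≤ _ := h2
      _ = _ := h3
      _ ≤ _ := by
        apply mul_le_mul_of_nonneg_left h4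
        positivity

lemma ph_tendsto : Tendsto ph atTop (𝓝 (π / 2)) := by
  have h1 : Tendsto (fun x : ℝ => 2 * π - x) atTop atBot :=
    tendsto_atBot_add_const_left atTop (2 * π) tendsto_neg_atTop_atBot
  have h2 : Tendsto (fun x : ℝ => π / 2 + 2 * Real.arctan (Real.exp (2 * π - x))) atTop
      (𝓝 (π / 2 + 2 * Real.arctan 0)) := by
    refine tendsto_const_nhds.add (Tendsto.const_mul 2 ?_)
    exact (Real.continuous_arctan.tendsto 0).comp (Real.tendsto_exp_atBot.comp h1)
  rw [Real.arctan_zero, mul_zero, add_zero] at h2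
  refine h2.congr' ?_
  filter_upwards [eventually_gt_atTop (2 * π)] with x hx
  unfold ph
  rw [if_neg (by linarith [Real.pi_pos]), if_neg (by linarith)]

lemma constraints : Constraints phR := by
  refine ⟨?_, ?_, ?_⟩
  · unfold phR; rw [if_pos le_rfl]; simp [ph_zero]
  · refine ph_tendsto.congr' ?_
    filter_upwards [eventually_gt_atTop 0] with x hx
    unfold phR
    rw [if_neg (not_le.mpr hx)]
  · have h1 : Tendsto (fun x => -ph (-x)) atBot (𝓝 (-(π / 2))) :=
      (ph_tendsto.comp tendsto_neg_atBot_atTop).neg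
    refine h1.congr' ?_
    filter_upwards [eventually_le_atBot 0] with x hx
    unfold phR
    rw [if_pos hx]

lemma overshoot : phR (3 * π / 2) = 5 * π / 4 := by
  have hpi := Real.pi_pos
  unfold phR ph
  rw [if_neg (by linarith), if_neg (by linarith), if_pos (by linarith)]
  have h1 : Real.sin (3 * π / 2) = -1 := by
    have : 3 * π / 2 = π / 2 + π := by ring
    rw [this, Real.sin_add_pi, Real.sin_pi_div_two]
  rw [h1, Real.arctan_neg, Real.arctan_one]
  ring

/-- **Negative answer to Q1.** There are an even continuous weight `a`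
(`e^{-1/2} ≤ a ≤ 2`) and an odd solution `φ ∈ Ḣ¹(ℝ)` of the weighted pendulum equation with the
constraints, such that `φ(x) > π/2` for some `x > 0`. -/
theorem result :
    ∃ a φ dφ : ℝ → ℝ, Continuous a ∧ (∀ x, a (-x) = a x) ∧ (∀ x, φ (-x) = -φ x) ∧
      IsWeight a ∧ IsHdot1 φ dφ ∧ SolvesPendulum a φ dφ ∧ Constraints φ ∧
      ∃ x > 0, π / 2 < φ x := by
  refine ⟨wtR, phR, dphR, continuous_wtR, ?_, ?_, ?_, ?_, solves, constraints,
    3 * π / 2, ?_, ?_⟩
  · intro x; unfold wtR; rw [abs_neg]
  · intro x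
    unfold phR
    rcases lt_trichotomy x 0 with h | h | h
    · rw [if_neg (by linarith : ¬ (-x ≤ 0)), if_pos h.le, neg_neg]
    · subst h; simp [ph_zero]
    · rw [if_pos (by linarith : -x ≤ 0), if_neg (not_le.mpr h), neg_neg]
  · refine ⟨continuous_wtR.measurable, Real.exp (-(1 / 2)), 2, Real.exp_pos _, fun x => ?_⟩
    exact wt_bounds _
  · refine ⟨memLp_dphR, fun x y => ⟨continuous_dphR.intervalIntegrable _ _, ?_⟩⟩
    rw [intervalIntegral.integral_eq_sub_of_hasDerivAt (fun z _ => phR_hasDerivAt z)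
      (continuous_dphR.intervalIntegrable _ _)]
  · have := Real.pi_pos; positivity
  · rw [overshoot]; linarith [Real.pi_pos]

end Pool.Agent.Results.MP_4601b9_an.Overshoot
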